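import Pool.Agent.R876.KS.Fin
import Pool.Agent.R876.KS.I

set_option autoImplicit false

namespace Pool.Agent.Results.MP_a3b3eb_an.KSets

open R876.KS

universe u

/-- In dimension at least two property (P) holds exactly for the norms induced by inner
products. -/
theorem result {X : Type u} [NormedAddCommGroup X] [NormedSpace ℝ X]
    (hn : 2 ≤ Module.finrank ℝ X) : PropP X ↔ IsHilb X := by
  have hfd : FiniteDimensional ℝ X := FiniteDimensional.of_finrank_pos (by omega)
  exact ⟨fun hP => hilb_of_propP hn hP, fun h => conv X hn h⟩

end Pool.Agent.Results.MP_a3b3eb_an.KSets
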